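import Mathlib
import Pool.Agent.TH881.RK.DefsH2

/-! # HF-5: an abstract inequality of Lorentz type -/

set_option autoImplicit false

namespace Pool.Agent.TH985.J5137

open Finset Filter Topology
open Pool.Agent.TH881
open Pool.Agent.TH881.RK
open Pool.Agent.TH881.RG
open Pool.Agent.TH881.RQ
open Pool.Agent.H373R2.T7

/-- concavity of the power -/
lemma conc {α : ℝ} (hα : 0 ≤ α) (hα1 : α ≤ 1) {t s b : ℝ} (ht : 0 ≤ t) (hts : t ≤ s)
    (hb : 0 ≤ b) : (s + b) ^ α + t ^ α ≤ s ^ α + (t + b) ^ α := by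
  have hcc := Real.concaveOn_rpow hα hα1
  rcases eq_or_lt_of_le (show 0 ≤ s + b - t by linarith) with hT | hT
  · have h1 : s = t := by linarith
    have h2 : b = 0 := by linarith
    rw [h1, h2]
    linarith
  · set T := s + b - t with hTdef
    have hl0 : 0 ≤ b / T := by positivity
    have hl1 : b / T ≤ 1 := (div_le_one hT).2 (by linarith)
    have hm : 0 ≤ 1 - b / T := by linarith
    have hx : t ∈ Set.Ici (0 : ℝ) := ht
    have hy : s + b ∈ Set.Ici (0 : ℝ) := by
      show 0 ≤ s + b
      linarith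
    have e1 := hcc.2 hx hy hl0 hm (by ring)
    have e2 := hcc.2 hx hy hm hl0 (by ring)
    simp only [smul_eq_mul] at e1 e2
    have f1 : b / T * t + (1 - b / T) * (s + b) = s := by
      have : b / T * T = b := div_mul_cancel₀ _ hT.ne'
      rw [hTdef] at this ⊢
      linear_combination -this
    have f2 : (1 - b / T) * t + b / T * (s + b) = t + b := by
      have : b / T * T = b := div_mul_cancel₀ _ hT.ne'
      rw [hTdef] at this ⊢
      linear_combination this
    rw [f1] at e1
    rw [f2] at e2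
    linarith

open Classical in
theorem core {X Y : Type} [Fintype X] (good : X → Y → Prop) (α : ℝ) (hα : 0 < α)
    (hα1 : α ≤ 1) (c : ℝ) (hc : 0 ≤ c) (f : Y → ℝ) (hf : ∀ y, 0 ≤ f y)
    (hQ : ∀ L : Finset Y, c * (L.card : ℝ) ^ α ≤
      ((univ.filter (fun x => ∃ y ∈ L, good x y)).card : ℝ)) :
    ∀ (k : ℕ) (L : Finset Y), L.card = k → ∀ μ : ℝ, 0 ≤ μ → (∀ y ∈ L, μ ≤ f y) →
      ∀ N : X → ℝ, (∀ x, 0 ≤ N x) → (∀ x, ∀ y ∈ L, good x y → f y ^ α ≤ N x) →
      c * (∑ y ∈ L, f y) ^ α + (((univ.filter (fun x => ∃ y ∈ L, good x y)).card : ℝ) -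
        c * (L.card : ℝ) ^ α) * μ ^ α ≤ ∑ x, N x := by
  intro k
  induction k with
  | zero =>
    intro L hL μ _ _ N hN _
    rw [card_eq_zero] at hL
    subst hL
    simp only [sum_empty, notMem_empty, false_and, exists_false, filter_false, card_empty,
      Nat.cast_zero, Real.zero_rpow hα.ne', mul_zero, sub_zero, zero_mul, add_zero]
    exact sum_nonneg fun x _ => hN x
  | succ k ih =>
    intro L hL μ hμ0 hμ N hN hNL
    obtain ⟨y0, hy0, hmin⟩ := exists_min_image L f (card_pos.1 (by omega))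
    set L' := L.erase y0 with hL'
    have hL'c : L'.card = k := by
      rw [hL', card_erase_of_mem hy0, hL]
      rfl
    have hins : insert y0 L' = L := insert_erase hy0
    set N' : X → ℝ := fun x => if ∃ y ∈ L', good x y then N x else 0 with hN'
    have hsub : ∀ y ∈ L', y ∈ L := fun y hy => mem_of_mem_erase hy
    have ih' := ih L' hL'c (f y0) (hf y0) (fun y hy => hmin y (hsub y hy)) N'
      (fun x => by
        rw [hN']
        dsimp only
        split_ifs
        · exact hN x
        · exact le_rfl)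
      (fun x y hy hg => by
        rw [hN']
        dsimp only
        rw [if_pos ⟨y, hy, hg⟩]
        exact hNL x y (hsub y hy) hg)
    -- comparison of the sums
    have hcmp : ∑ x, N' x + (((univ.filter (fun x => ∃ y ∈ L, good x y)).card : ℝ) -
        ((univ.filter (fun x => ∃ y ∈ L', good x y)).card : ℝ)) * f y0 ^ α ≤ ∑ x, N x := by
      rw [← Finset.sum_boole, ← Finset.sum_boole, ← Finset.sum_sub_distrib, Finset.sum_mul,
        ← Finset.sum_add_distrib]
      refine sum_le_sum fun x _ => ?_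
      rw [hN']
      dsimp only
      by_cases h1 : ∃ y ∈ L', good x y
      · have h2 : ∃ y ∈ L, good x y := by
          obtain ⟨y, hy, hg⟩ := h1
          exact ⟨y, hsub y hy, hg⟩
        rw [if_pos h1, if_pos h1, if_pos h2]
        linarith
      · rw [if_neg h1, if_neg h1]
        by_cases h2 : ∃ y ∈ L, good x y
        · rw [if_pos h2]
          obtain ⟨y, hy, hg⟩ := h2
          have hyy : y = y0 := by
            by_contra hne
            exact h1 ⟨y, mem_erase.2 ⟨hne, hy⟩, hg⟩
          have := hNL x y hy hg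
          rw [hyy] at this
          linarith
        · rw [if_neg h2]
          have := hN x
          linarith
    -- the scalar inequality
    have hs : ∑ y ∈ L, f y = ∑ y ∈ L', f y + f y0 := (sum_erase_add L f hy0).symm
    have hks : (k : ℝ) * f y0 ≤ ∑ y ∈ L', f y := by
      have := card_nsmul_le_sum L' f (f y0) (fun y hy => hmin y (hsub y hy))
      rw [hL'c, nsmul_eq_mul] at this
      exact this
    have hb := hf y0
    have hconc := conc hα.le hα1 (mul_nonneg (Nat.cast_nonneg k) hb) hks hb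
    have e1 : ((k : ℝ) * f y0) ^ α = (k : ℝ) ^ α * f y0 ^ α :=
      Real.mul_rpow (Nat.cast_nonneg k) hb
    have e2 : ((k : ℝ) * f y0 + f y0) ^ α = ((k : ℝ) + 1) ^ α * f y0 ^ α := by
      rw [show (k : ℝ) * f y0 + f y0 = ((k : ℝ) + 1) * f y0 by ring]
      exact Real.mul_rpow (by positivity) hb
    rw [e1, e2] at hconc
    have hμb : μ ^ α ≤ f y0 ^ α := Real.rpow_le_rpow hμ0 (hμ y0 hy0) hα.le
    have hQL := hQ L
    rw [hL] at hQL ⊢
    rw [hL'c] at ih'
    push_cast at hQL ⊢
    rw [hs]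
    have h3 := mul_le_mul_of_nonneg_left hconc hc
    have h4 := mul_le_mul_of_nonneg_left hμb (sub_nonneg.2 hQL)
    nlinarith [h3, h4, ih', hcmp]


open Classical in
theorem stLor0 (X Y : Type) [Fintype X] [Fintype Y] [Nonempty Y] (good : X → Y → Prop) (α : ℝ)
    (hα : 0 < α) (hα1 : α ≤ 1) (A : ℝ) (hA : ∀ L : Finset Y,
      A * ((L.card : ℝ) / Fintype.card Y) ^ α ≤
      ((univ.filter (fun x => ∃ y ∈ L, good x y)).card : ℝ))
    (f : Y → ℝ) (hf : ∀ y, 0 ≤ f y) (M : X → ℝ) (hM : ∀ x, 0 ≤ M x)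
    (hMf : ∀ x y, good x y → f y ^ α ≤ M x) :
    A * ((∑ y, f y) / Fintype.card Y) ^ α ≤ ∑ x, M x := by
  have hn : (0 : ℝ) < Fintype.card Y := by exact_mod_cast Fintype.card_pos
  have hs : 0 ≤ ∑ y, f y := sum_nonneg fun y _ => hf y
  rcases le_or_gt 0 A with h0 | h0
  · have hnα : 0 < (Fintype.card Y : ℝ) ^ α := Real.rpow_pos_of_pos hn α
    have key := core good α hα hα1 (A / (Fintype.card Y : ℝ) ^ α) (div_nonneg h0 hnα.le) f hf
      (fun L => by
        have := hA L
        rw [Real.div_rpow (Nat.cast_nonneg _) hn.le] at this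
        calc A / (Fintype.card Y : ℝ) ^ α * (L.card : ℝ) ^ α
            = A * ((L.card : ℝ) ^ α / (Fintype.card Y : ℝ) ^ α) := by ring
          _ ≤ _ := this)
      _ univ rfl 0 le_rfl (fun y _ => hf y) M hM (fun x y _ hg => hMf x y hg)
    rw [Real.zero_rpow hα.ne', mul_zero, add_zero] at key
    rw [Real.div_rpow hs hn.le]
    calc A * ((∑ y, f y) ^ α / (Fintype.card Y : ℝ) ^ α)
        = A / (Fintype.card Y : ℝ) ^ α * (∑ y, f y) ^ α := by ring
      _ ≤ _ := key
  · have h1 : 0 ≤ ((∑ y, f y) / Fintype.card Y) ^ α :=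
      Real.rpow_nonneg (div_nonneg hs hn.le) α
    have h2 : 0 ≤ ∑ x, M x := sum_nonneg fun x _ => hM x
    nlinarith

theorem stLor : StLor := fun X Y _ _ _ good α h1 h2 A hA f hf M hM hMf =>
  stLor0 X Y good α h1 h2 A hA f hf M hM hMf

end Pool.Agent.TH985.J5137
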